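import Pool.Agent.helper52.T1.SpecS

/-!
# MP_07c750, PROJECT T1, row HSB: Hilbert-Schmidt bound and Parseval for the leaf inequality
-/

set_option autoImplicit false

open scoped MatrixGroups ContDiff Topology UpperHalfPlane ComplexConjugate
open UpperHalfPlane MeasureTheory Filter Set

namespace Pool.Agent.T1

open Pool.Agent.RS Pool.Agent.MS Pool.Agent.HV
open Pool.Agent.EN (XG MG mkX mkM fl pr)

noncomputable section

lemma HSB_norm_e1 (x : ℝ) : ‖e1 x‖ = 1 := by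
  unfold e1
  exact Complex.norm_exp_ofReal_mul_I _

lemma HSB_cont (J : Finset ℕ) (a : ℕ → ℂ) : Continuous fun v : ℝ => ∑ j ∈ J, a j * e1 (j * v) := by
  unfold e1
  fun_prop

lemma HSB_cs (J : Finset ℕ) (a : ℕ → ℂ) (v : ℝ) :
    ‖∑ j ∈ J, a j * e1 (j * v)‖ ^ 2 ≤ J.card * ∑ j ∈ J, ‖a j‖ ^ 2 := by
  have h1 : ‖∑ j ∈ J, a j * e1 (j * v)‖ ≤ ∑ j ∈ J, ‖a j‖ := by
    refine (norm_sum_le _ _).trans (le_of_eq ?_)
    exact Finset.sum_congr rfl fun j _ => by rw [norm_mul, HSB_norm_e1, mul_one]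
  calc ‖∑ j ∈ J, a j * e1 (j * v)‖ ^ 2 ≤ (∑ j ∈ J, ‖a j‖) ^ 2 := by gcongr
    _ ≤ _ := sq_sum_le_card_mul_sum_sq

lemma HSB_orth (j k : ℕ) : ∫ v in (0 : ℝ)..1, e1 (((j : ℝ) - k) * v) = if j = k then 1 else 0 := by
  split_ifs with h
  · subst h
    simp [e1]
  · have hjk : ((j : ℂ) - k) ≠ 0 := by
      rw [sub_ne_zero]
      exact_mod_cast h
    have hc : (2 * Real.pi * ((j : ℂ) - k) * Complex.I) ≠ 0 := by
      have hpi : (Real.pi : ℂ) ≠ 0 := by exact_mod_cast Real.pi_ne_zero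
      exact mul_ne_zero (mul_ne_zero (mul_ne_zero two_ne_zero hpi) hjk) Complex.I_ne_zero
    have h1 : ∀ v : ℝ, e1 (((j : ℝ) - k) * v) = Complex.exp ((2 * Real.pi * ((j : ℂ) - k) * Complex.I) * v) := by
      intro v
      unfold e1
      congr 1
      push_cast
      ring
    simp_rw [h1]
    rw [integral_exp_mul_complex hc]
    have h2 : Complex.exp (2 * Real.pi * ((j : ℂ) - k) * Complex.I * ((1 : ℝ) : ℂ)) = 1 := by
      rw [Complex.exp_eq_one_iff]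
      exact ⟨(j : ℤ) - k, by push_cast; ring⟩
    rw [h2]
    simp

lemma HSB_sq (J : Finset ℕ) (a : ℕ → ℂ) (v : ℝ) :
    ((‖∑ j ∈ J, a j * e1 (j * v)‖ ^ 2 : ℝ) : ℂ) =
      ∑ j ∈ J, ∑ k ∈ J, (a j * conj (a k)) * e1 (((j : ℝ) - k) * v) := by
  have h0 : ∀ z : ℂ, ((‖z‖ ^ 2 : ℝ) : ℂ) = z * conj z := by
    intro z
    rw [Complex.mul_conj, Complex.normSq_eq_norm_sq]
  rw [h0, map_sum, Finset.sum_mul_sum]
  refine Finset.sum_congr rfl fun j _ => Finset.sum_congr rfl fun k _ => ?_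
  have h1 : e1 ((j : ℝ) * v) * conj (e1 ((k : ℝ) * v)) = e1 (((j : ℝ) - k) * v) := by
    unfold e1
    rw [← Complex.exp_conj, ← Complex.exp_add]
    congr 1
    simp only [map_mul, Complex.conj_ofReal, Complex.conj_I]
    push_cast
    ring
  rw [map_mul, ← h1]
  ring

lemma HSB_parseval (J : Finset ℕ) (a : ℕ → ℂ) :
    ∫ v in (0 : ℝ)..1, ‖∑ j ∈ J, a j * e1 (j * v)‖ ^ 2 = ∑ j ∈ J, ‖a j‖ ^ 2 := by
  have hc : ∀ j k : ℕ, Continuous fun v : ℝ => (a j * conj (a k)) * e1 (((j : ℝ) - k) * v) := by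
    intro j k
    unfold e1
    fun_prop
  have h1 : ((∫ v in (0 : ℝ)..1, ‖∑ j ∈ J, a j * e1 (j * v)‖ ^ 2 : ℝ) : ℂ) = ((∑ j ∈ J, ‖a j‖ ^ 2 : ℝ) : ℂ) := by
    rw [← intervalIntegral.integral_ofReal]
    simp_rw [HSB_sq]
    rw [intervalIntegral.integral_finset_sum]
    · push_cast
      refine Finset.sum_congr rfl fun j hj => ?_
      rw [intervalIntegral.integral_finset_sum]
      · have h2 : ∀ k ∈ J, ∫ v in (0 : ℝ)..1, (a j * conj (a k)) * e1 (((j : ℝ) - k) * v) = if j = k then (a j * conj (a k)) else 0 := by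
          intro k _
          rw [intervalIntegral.integral_const_mul, HSB_orth]
          split_ifs <;> simp
        rw [Finset.sum_congr rfl h2, Finset.sum_ite_eq, if_pos hj, Complex.mul_conj, Complex.normSq_eq_norm_sq]
        push_cast
        rfl
      · intro k _
        exact (hc j k).intervalIntegrable _ _
    · intro j _
      exact (continuous_finset_sum _ fun k _ => hc j k).intervalIntegrable _ _
  exact_mod_cast h1

lemma HSB_cel_eq (N : ℕ) (C : Finset ℕ) :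
    cel N C = ⋃ c ∈ C, Ico ((c : ℝ) / N) (((c : ℝ) + 1) / N) := by
  ext v
  simp only [cel, mem_setOf_eq, mem_iUnion, mem_Ico, exists_prop]

lemma HSB_cel_meas (N : ℕ) (C : Finset ℕ) : MeasurableSet (cel N C) := by
  rw [HSB_cel_eq]
  exact Finset.measurableSet_biUnion _ fun c _ => measurableSet_Ico

lemma HSB_cel_sub (N : ℕ) (C : Finset ℕ) (hN : 1 ≤ N) (hC : ∀ c ∈ C, c < N) : cel N C ⊆ Ico 0 1 := by
  rintro v ⟨c, hc, h1, h2⟩
  have hN' : (0 : ℝ) < N := by exact_mod_cast hN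
  have hc' : (c : ℝ) + 1 ≤ N := by exact_mod_cast hC c hc
  refine ⟨le_trans (by positivity) h1, lt_of_lt_of_le h2 ?_⟩
  rw [div_le_one hN']
  exact hc'

lemma HSB_cel_vol (N : ℕ) (C : Finset ℕ) (hN : 1 ≤ N) : volume.real (cel N C) ≤ C.card / N := by
  have hN' : (0 : ℝ) < N := by exact_mod_cast hN
  rw [HSB_cel_eq]
  refine (measureReal_biUnion_finset_le _ _).trans ?_
  have h1 : ∀ c ∈ C, volume.real (Ico ((c : ℝ) / N) (((c : ℝ) + 1) / N)) = 1 / N := by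
    intro c _
    rw [Real.volume_real_Ico_of_le (by gcongr; linarith)]
    ring
  rw [Finset.sum_congr rfl h1, Finset.sum_const, nsmul_eq_mul]
  apply le_of_eq
  ring

/-- **Row HSB.** -/
theorem HSB_proof : HSB_stmt := by
  intro N C J hN hC
  have hsub := HSB_cel_sub N C hN hC
  have hmeas := HSB_cel_meas N C
  have hvol := HSB_cel_vol N C hN
  have hfin : volume (cel N C) < ⊤ := lt_of_le_of_lt (measure_mono hsub) (by simp)
  refine ⟨fun a => ?_, fun a => ?_⟩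
  · have hS : 0 ≤ (J.card : ℝ) * ∑ j ∈ J, ‖a j‖ ^ 2 := by positivity
    have hint : IntegrableOn (fun v : ℝ => ‖∑ j ∈ J, a j * e1 (j * v)‖ ^ 2) (cel N C) := by
      have h0 : IntegrableOn (fun v : ℝ => ‖∑ j ∈ J, a j * e1 (j * v)‖ ^ 2) (Icc 0 1) :=
        ((HSB_cont J a).norm.pow 2).continuousOn.integrableOn_Icc
      exact h0.mono_set (hsub.trans Ico_subset_Icc_self)
    calc ∫ v in cel N C, ‖∑ j ∈ J, a j * e1 (j * v)‖ ^ 2
        ≤ ∫ _ in cel N C, (J.card : ℝ) * ∑ j ∈ J, ‖a j‖ ^ 2 := by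
          refine integral_mono hint (integrableOn_const hfin.ne) fun v => HSB_cs J a v
      _ = volume.real (cel N C) * ((J.card : ℝ) * ∑ j ∈ J, ‖a j‖ ^ 2) := by
          rw [setIntegral_const, smul_eq_mul]
      _ ≤ C.card / N * ((J.card : ℝ) * ∑ j ∈ J, ‖a j‖ ^ 2) := by gcongr
      _ = _ := by ring
  · have h0 : IntegrableOn (fun v : ℝ => ‖∑ j ∈ J, a j * e1 (j * v)‖ ^ 2) (Ioc 0 1) :=
      (((HSB_cont J a).norm.pow 2).continuousOn.integrableOn_Icc (a := 0) (b := 1)).mono_set Ioc_subset_Icc_self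
    have h0' : IntegrableOn (fun v : ℝ => ‖∑ j ∈ J, a j * e1 (j * v)‖ ^ 2) (Ico 0 1) :=
      (((HSB_cont J a).norm.pow 2).continuousOn.integrableOn_Icc (a := 0) (b := 1)).mono_set Ico_subset_Icc_self
    calc ∫ v in cel N C, ‖∑ j ∈ J, a j * e1 (j * v)‖ ^ 2
        ≤ ∫ v in Ico (0 : ℝ) 1, ‖∑ j ∈ J, a j * e1 (j * v)‖ ^ 2 := by
          refine setIntegral_mono_set h0' ?_ (Filter.Eventually.of_forall hsub)
          exact Filter.Eventually.of_forall fun v => by positivity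
      _ = ∫ v in Ioc (0 : ℝ) 1, ‖∑ j ∈ J, a j * e1 (j * v)‖ ^ 2 := integral_Ico_eq_integral_Ioc
      _ = ∫ v in (0 : ℝ)..1, ‖∑ j ∈ J, a j * e1 (j * v)‖ ^ 2 := by
          rw [intervalIntegral.integral_of_le zero_le_one]
      _ = ∑ j ∈ J, ‖a j‖ ^ 2 := HSB_parseval J a
      _ = 1 * ∑ j ∈ J, ‖a j‖ ^ 2 := (one_mul _).symm

end

end Pool.Agent.T1
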