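import Pool.Agent.helper69.T1.HSB

/-!
# MP_07c750, PROJECT T1, row MON: monotonicity of the leaf inequality
-/

set_option autoImplicit false

open scoped MatrixGroups ContDiff Topology UpperHalfPlane ComplexConjugate
open UpperHalfPlane MeasureTheory Filter Set

namespace Pool.Agent.T1

open Pool.Agent.RS Pool.Agent.MS Pool.Agent.HV
open Pool.Agent.EN (XG MG mkX mkM fl pr)

noncomputable section

lemma MON_int (J : Finset ℕ) (a : ℕ → ℂ) (Y : Set ℝ) (hY : Y ⊆ Icc 0 1) :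
    IntegrableOn (fun v : ℝ => ‖∑ j ∈ J, a j * e1 (j * v)‖ ^ 2) Y :=
  (((HSB_cont J a).norm.pow 2).continuousOn.integrableOn_Icc).mono_set hY

lemma MON_1 (Y Y' : Set ℝ) (J J' : Finset ℕ) (Q Q' : ℝ) (_ : MeasurableSet Y) (_ : MeasurableSet Y')
    (hY : Y ⊆ Icc 0 1) (hYY : Y' ⊆ Y) (hJ : J' ⊆ J) (hQ : 0 ≤ Q) (hQQ : Q ≤ Q') (h : LQ Y J Q) :
    LQ Y' J' Q' := by
  classical
  intro a
  set b : ℕ → ℂ := fun j => if j ∈ J' then a j else 0 with hb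
  have h1 : ∀ v : ℝ, ∑ j ∈ J, b j * e1 (j * v) = ∑ j ∈ J', a j * e1 (j * v) := by
    intro v
    rw [← Finset.sum_subset hJ (f := fun j => b j * e1 (j * v))]
    · exact Finset.sum_congr rfl fun j hj => by simp [hb, hj]
    · intro j _ hj
      simp [hb, hj]
  have h2 : ∑ j ∈ J, ‖b j‖ ^ 2 = ∑ j ∈ J', ‖a j‖ ^ 2 := by
    rw [← Finset.sum_subset hJ (f := fun j => ‖b j‖ ^ 2)]
    · exact Finset.sum_congr rfl fun j hj => by simp [hb, hj]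
    · intro j _ hj
      simp [hb, hj]
  have h3 := h b
  simp_rw [h1, h2] at h3
  calc ∫ v in Y', ‖∑ j ∈ J', a j * e1 (j * v)‖ ^ 2
      ≤ ∫ v in Y, ‖∑ j ∈ J', a j * e1 (j * v)‖ ^ 2 := by
        refine setIntegral_mono_set (MON_int J' a Y hY) ?_ (Filter.Eventually.of_forall hYY)
        exact Filter.Eventually.of_forall fun v => by positivity
    _ ≤ Q * ∑ j ∈ J', ‖a j‖ ^ 2 := h3
    _ ≤ Q' * ∑ j ∈ J', ‖a j‖ ^ 2 := by
        gcongr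

lemma MON_2 (Y Y' : Set ℝ) (J : Finset ℕ) (Q Q' : ℝ) (_ : MeasurableSet Y) (_ : MeasurableSet Y')
    (hY : Y ⊆ Icc 0 1) (hY' : Y' ⊆ Icc 0 1) (h : LQ Y J Q) (h' : LQ Y' J Q') : LQ (Y ∪ Y') J (Q + Q') := by
  intro a
  have h1 : ∫ v in Y ∪ Y', ‖∑ j ∈ J, a j * e1 (j * v)‖ ^ 2 ≤
      (∫ v in Y, ‖∑ j ∈ J, a j * e1 (j * v)‖ ^ 2) + ∫ v in Y', ‖∑ j ∈ J, a j * e1 (j * v)‖ ^ 2 := by
    have hi := MON_int J a Y hY
    have hi' := MON_int J a Y' hY'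
    rw [← integral_add_measure hi hi']
    exact integral_mono_measure (Measure.restrict_union_le _ _) (Filter.Eventually.of_forall fun v => by positivity)
      (Integrable.add_measure hi hi')
  have h2 := h a
  have h3 := h' a
  rw [add_mul]
  linarith

lemma MON_3 (Y : Set ℝ) (J J' : Finset ℕ) (Q Q' : ℝ) (hm : MeasurableSet Y)
    (hY : Y ⊆ Icc 0 1) (hQ : 0 ≤ Q) (hQ' : 0 ≤ Q') (h : LQ Y J Q) (h' : LQ Y J' Q') : LQ Y (J ∪ J') (2 * (Q + Q')) := by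
  classical
  intro a
  have hd : Disjoint J (J' \ J) := Finset.disjoint_sdiff
  have hu : J ∪ J' = J ∪ (J' \ J) := Finset.union_sdiff_self_eq_union.symm
  have h2 : LQ Y (J' \ J) Q' := MON_1 Y Y J' (J' \ J) Q' Q' hm hm hY Subset.rfl Finset.sdiff_subset hQ' le_rfl h'
  have e1' := h a
  have e2' := h2 a
  have hsum : ∀ v : ℝ, ∑ j ∈ J ∪ J', a j * e1 (j * v) = ∑ j ∈ J, a j * e1 (j * v) + ∑ j ∈ J' \ J, a j * e1 (j * v) := by
    intro v
    rw [hu, Finset.sum_union hd]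
  have hsq : ∑ j ∈ J ∪ J', ‖a j‖ ^ 2 = ∑ j ∈ J, ‖a j‖ ^ 2 + ∑ j ∈ J' \ J, ‖a j‖ ^ 2 := by
    rw [hu, Finset.sum_union hd]
  have h3 : ∫ v in Y, ‖∑ j ∈ J ∪ J', a j * e1 (j * v)‖ ^ 2 ≤
      ∫ v in Y, (2 * ‖∑ j ∈ J, a j * e1 (j * v)‖ ^ 2 + 2 * ‖∑ j ∈ J' \ J, a j * e1 (j * v)‖ ^ 2) := by
    refine integral_mono (MON_int _ a Y hY) (((MON_int J a Y hY).const_mul 2).add ((MON_int (J' \ J) a Y hY).const_mul 2)) fun v => ?_
    show ‖∑ j ∈ J ∪ J', a j * e1 (j * v)‖ ^ 2 ≤ 2 * ‖∑ j ∈ J, a j * e1 (j * v)‖ ^ 2 + 2 * ‖∑ j ∈ J' \ J, a j * e1 (j * v)‖ ^ 2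
    rw [hsum]
    set x := ∑ j ∈ J, a j * e1 (j * v)
    set y := ∑ j ∈ J' \ J, a j * e1 (j * v)
    have := norm_add_le x y
    have h0 := norm_nonneg (x + y)
    nlinarith [sq_nonneg (‖x‖ - ‖y‖)]
  rw [integral_add ((MON_int J a Y hY).const_mul 2) ((MON_int (J' \ J) a Y hY).const_mul 2), integral_const_mul, integral_const_mul] at h3
  have p1 : 0 ≤ ∑ j ∈ J, ‖a j‖ ^ 2 := by positivity
  have p2 : 0 ≤ ∑ j ∈ J' \ J, ‖a j‖ ^ 2 := by positivity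
  rw [hsq]
  nlinarith [mul_nonneg hQ p2, mul_nonneg hQ' p1]

lemma MON_4 (Y : Set ℝ) (J : Finset ℕ) (s : ℕ) (Q : ℝ) (h : LQ Y J Q) : LQ Y (J.image fun j => j + s) Q := by
  classical
  intro a
  have hinj : Function.Injective fun j : ℕ => j + s := add_left_injective s
  have h1 : ∀ v : ℝ, ‖∑ j ∈ J.image (fun j => j + s), a j * e1 (j * v)‖ = ‖∑ j ∈ J, a (j + s) * e1 (j * v)‖ := by
    intro v
    rw [Finset.sum_image fun x _ y _ hxy => hinj hxy]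
    have h2 : ∀ j ∈ J, a (j + s) * e1 (((j + s : ℕ) : ℝ) * v) = e1 (s * v) * (a (j + s) * e1 (j * v)) := by
      intro j _
      have : e1 (((j + s : ℕ) : ℝ) * v) = e1 (s * v) * e1 (j * v) := by
        unfold e1
        rw [← Complex.exp_add]
        congr 1
        push_cast
        ring
      rw [this]
      ring
    rw [Finset.sum_congr rfl h2, ← Finset.mul_sum, norm_mul, HSB_norm_e1, one_mul]
  have h3 := h fun j => a (j + s)
  simp_rw [h1]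
  rw [Finset.sum_image fun x _ y _ hxy => hinj hxy]
  exact h3

/-- **Row MON.** -/
theorem MON_proof : MON_stmt := by
  refine ⟨MON_1, MON_2, MON_3, fun Y J s Q _ _ h => MON_4 Y J s Q h, ?_⟩
  intro N C C' hN hC hCC
  refine ⟨HSB_cel_meas N C, (HSB_cel_sub N C hN hC).trans Ico_subset_Icc_self, ?_, HSB_cel_vol N C hN⟩
  rintro v ⟨c, hc, h1, h2⟩
  exact ⟨c, hCC hc, h1, h2⟩

end

end Pool.Agent.T1
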